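import Pool.Agent.Q108.CIS

set_option autoImplicit false

/-!
CIS graphs `Γ` with `α(Γ) ω(Γ) < |V(Γ)|`.

Five blocks in a cyclic order, each a disjoint union of `a` cliques of size `b`; consecutive blocks
are completely joined, and for each `i` there is one more vertex joined to the blocks `i` and
`i + 1`.  The construction is in `Pool.Agent.Q108.CIS`.
-/

namespace Pool.Agent.Results.MP_703660_co.Negative

/-- A graph is CIS if every maximal clique and every maximal stable set have a common vertex. -/
def IsCIS {V : Type*} (G : SimpleGraph V) : Prop :=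
  ∀ C S : Set V, Maximal (fun X : Set V => G.IsClique X) C →
    Maximal (fun X : Set V => G.IsIndepSet X) S → (C ∩ S).Nonempty

/-- For all `a, b ≥ 3` there is a CIS graph with `5ab + 5` vertices, independence number `2a + 1`
and clique number `2b + 1`; the product of the two numbers is less than the number of vertices. -/
theorem result : ∀ a b : ℕ, 3 ≤ a → 3 ≤ b →
    ∃ (V : Type) (_ : Fintype V) (Γ : SimpleGraph V), IsCIS Γ ∧
      Fintype.card V = 5 * a * b + 5 ∧ Γ.indepNum = 2 * a + 1 ∧ Γ.cliqueNum = 2 * b + 1 ∧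
      Γ.indepNum * Γ.cliqueNum < Fintype.card V := by
  intro a b ha hb
  have hc : Fintype.card (Q108.CIS.Vx a b) = 5 * a * b + 5 := by
    simp [Q108.CIS.Vx, ZMod.card, mul_assoc]
  have h1 := Q108.CIS.indepNum_eq (a := a) (b := b) (by omega) (by omega)
  have h2 := Q108.CIS.cliqueNum_eq (a := a) (b := b) (by omega)
  refine ⟨Q108.CIS.Vx a b, inferInstance, Q108.CIS.Gam a b, Q108.CIS.isCIS (by omega) (by omega), hc, h1, h2, ?_⟩
  rw [hc, h1, h2]
  obtain ⟨c, rfl⟩ := Nat.exists_eq_add_of_le ha
  obtain ⟨d, rfl⟩ := Nat.exists_eq_add_of_le hb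
  nlinarith [Nat.zero_le (c * d)]

end Pool.Agent.Results.MP_703660_co.Negative
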